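import Pool.Agent.Helper59.AA.LE

set_option autoImplicit false

/-!
Project AA, module BB: Buchstab's identity.
-/

open Finset MeasureTheory
open scoped BigOperators Nat

namespace Pool.Agent.Helper59.AA

open Pool.Agent.Helper40.MR
open Pool.Agent.Helper99.AA

theorem bb_filter_succ (w y : ℕ) (hwy : w ≤ y) (hq : (y + 1).Prime) :
    (Ioc w (y + 1)).filter Nat.Prime = insert (y + 1) ((Ioc w y).filter Nat.Prime) := by
  ext p
  simp only [Finset.mem_filter, Finset.mem_Ioc, Finset.mem_insert]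
  constructor
  · rintro ⟨⟨h1, h2⟩, h3⟩
    rcases Nat.lt_or_ge y p with h | h
    · left
      omega
    · right
      exact ⟨⟨h1, h⟩, h3⟩
  · rintro (rfl | ⟨⟨h1, h2⟩, h3⟩)
    · exact ⟨⟨by omega, le_rfl⟩, hq⟩
    · exact ⟨⟨h1, by omega⟩, h3⟩

theorem bb_filter_succ' (w y : ℕ) (hq : ¬ (y + 1).Prime) :
    (Ioc w (y + 1)).filter Nat.Prime = (Ioc w y).filter Nat.Prime := by
  ext p
  simp only [Finset.mem_filter, Finset.mem_Ioc]
  constructor
  · rintro ⟨⟨h1, h2⟩, h3⟩
    refine ⟨⟨h1, ?_⟩, h3⟩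
    rcases Nat.lt_or_ge y p with h | h
    · have : p = y + 1 := by omega
      rw [this] at h3
      exact absurd h3 hq
    · exact h
  · rintro ⟨⟨h1, h2⟩, h3⟩
    exact ⟨⟨h1, by omega⟩, h3⟩

theorem bb_Vy_succ (y : ℕ) (hq : (y + 1).Prime) :
    Vy (y + 1) = Vy y * (1 - 1 / ((y + 1 : ℕ) : ℝ)) := by
  have h1 : (Finset.Icc 1 (y + 1)).filter Nat.Prime =
      insert (y + 1) ((Finset.Icc 1 y).filter Nat.Prime) := by
    ext p
    simp only [Finset.mem_filter, Finset.mem_Icc, Finset.mem_insert]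
    constructor
    · rintro ⟨⟨h1, h2⟩, h3⟩
      rcases Nat.lt_or_ge y p with h | h
      · left
        omega
      · right
        exact ⟨⟨h1, h⟩, h3⟩
    · rintro (rfl | ⟨⟨h1, h2⟩, h3⟩)
      · exact ⟨⟨by omega, le_rfl⟩, hq⟩
      · exact ⟨⟨h1, by omega⟩, h3⟩
  unfold Vy
  rw [h1, Finset.prod_insert (by simp), mul_comm]

theorem bb_Vy_succ' (y : ℕ) (hq : ¬ (y + 1).Prime) : Vy (y + 1) = Vy y := by
  have h1 : (Finset.Icc 1 (y + 1)).filter Nat.Prime = (Finset.Icc 1 y).filter Nat.Prime := by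
    ext p
    simp only [Finset.mem_filter, Finset.mem_Icc]
    constructor
    · rintro ⟨⟨h1, h2⟩, h3⟩
      refine ⟨⟨h1, ?_⟩, h3⟩
      rcases Nat.lt_or_ge y p with h | h
      · have : p = y + 1 := by omega
        rw [this] at h3
        exact absurd h3 hq
      · exact h
    · rintro ⟨⟨h1, h2⟩, h3⟩
      exact ⟨⟨h1, by omega⟩, h3⟩
  unfold Vy
  rw [h1]

theorem bb_ro_succ' {y : ℕ} (hq : ¬ (y + 1).Prime) (n : ℕ) : ro (y + 1) n = ro y n := by
  have h1 : Ro (y + 1) n ↔ Ro y n := by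
    constructor
    · intro h p hp hpn
      have := h p hp hpn
      omega
    · intro h p hp hpn
      have h2 := h p hp hpn
      have h3 : p ≠ y + 1 := by
        rintro rfl
        exact hq hp
      omega
  by_cases h : Ro y n
  · rw [ro_pos h, ro_pos (h1.2 h)]
  · rw [ro_neg h, ro_neg fun h' => h (h1.1 h')]

theorem bb_ro_succ {y : ℕ} (hq : (y + 1).Prime) (n : ℕ) :
    ro (y + 1) n = ro y n - if y + 1 ∣ n then ro y n else 0 := by
  by_cases hd : y + 1 ∣ n
  · rw [if_pos hd, sub_self]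
    refine ro_neg fun h => ?_
    have := h (y + 1) hq hd
    omega
  · rw [if_neg hd, sub_zero]
    have h1 : Ro (y + 1) n ↔ Ro y n := by
      constructor
      · intro h p hp hpn
        have := h p hp hpn
        omega
      · intro h p hp hpn
        have h2 := h p hp hpn
        have h3 : p ≠ y + 1 := by
          rintro rfl
          exact hd hpn
        omega
    by_cases h : Ro y n
    · rw [ro_pos h, ro_pos (h1.2 h)]
    · rw [ro_neg h, ro_neg fun h' => h (h1.1 h')]

theorem bb_Ph_succ {y : ℕ} (hq : (y + 1).Prime) (N t : ℝ) :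
    Ph 0 (y + 1) N t = Ph 0 y N t - nit (y + 1) t * Ph 0 y (N / ((y + 1 : ℕ) : ℝ)) t := by
  unfold Ph Sg
  have h1 : ∀ n ∈ Icc 1 ⌊N⌋₊, (Real.log n : ℂ) ^ 0 * rt (y + 1) t n =
      (Real.log n : ℂ) ^ 0 * rt y t n - if y + 1 ∣ n then rt y t n else 0 := by
    intro n _
    rw [pow_zero, one_mul, one_mul]
    unfold rt
    rw [bb_ro_succ hq]
    split_ifs <;> ring
  rw [Finset.sum_congr rfl h1, Finset.sum_sub_distrib, le_multiples (Nat.succ_ne_zero y),
    Finset.mul_sum]
  congr 1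
  refine Finset.sum_congr rfl fun m hm => ?_
  have hm0 : m ≠ 0 := by
    have := (Finset.mem_Icc.1 hm).1
    omega
  rw [pow_zero, one_mul]
  unfold rt
  rw [ro_mul, ro_pos ((Ro_prime hq).2 (Nat.lt_succ_self y)), nit_mul (Nat.succ_ne_zero y) hm0]
  ring

theorem st_BB : ST_BB := by
  intro w y N t hw hwy hN
  induction y, hwy using Nat.le_induction with
  | base => simp
  | succ y hwy ih =>
    by_cases hq : (y + 1).Prime
    · have h1 : Dd (y + 1) N t = Dd y N t - nit (y + 1) t * Dd y (N / ((y + 1 : ℕ) : ℝ)) t := by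
        unfold Dd
        rw [bb_Ph_succ hq, bb_Vy_succ y hq]
        have h2 : nit (y + 1) t * Mt (N / ((y + 1 : ℕ) : ℝ)) t = Mt N t / ((y + 1 : ℕ) : ℂ) :=
          nit_Mt (Nat.succ_ne_zero y) hN t
        push_cast at h2 ⊢
        linear_combination -(Vy y : ℂ) * h2
      rw [bb_filter_succ w y hwy hq, Finset.sum_insert (by simp), h1, ih, Nat.add_sub_cancel]
      ring
    · have h1 : Dd (y + 1) N t = Dd y N t := by
        unfold Dd Ph rt
        simp only [bb_ro_succ' hq, bb_Vy_succ' y hq]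
      rw [bb_filter_succ' w y hq, h1, ih]

end Pool.Agent.Helper59.AA
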