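import Pool.Agent.Helper99.AA.Basic

set_option autoImplicit false

/-!
Project AA, module LE: Legendre's identity for the rough numbers.
-/

open Finset MeasureTheory
open scoped BigOperators Nat ArithmeticFunction.Moebius ArithmeticFunction.zeta

namespace Pool.Agent.Helper59.AA

open Pool.Agent.Helper40.MR
open Pool.Agent.Helper99.AA

/-- rough numbers are the numbers prime to the primorial -/
theorem le_rough_iff {y n : ℕ} : Ro y n ↔ Nat.Coprime n (primorial y) := by
  constructor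
  · intro h
    refine Nat.coprime_of_dvd fun p hp hpn hpy => ?_
    have h1 := (Nat.Prime.dvd_primorial_iff hp).1 hpy
    have h2 := h p hp hpn
    omega
  · intro h p hp hpn
    by_contra hcon
    push Not at hcon
    have h1 := (Nat.Prime.dvd_primorial_iff hp).2 hcon
    exact (Nat.Prime.one_lt hp).ne' (Nat.eq_one_of_dvd_coprimes h hpn h1)

theorem le_mu_sum (n : ℕ) :
    ∑ d ∈ n.divisors, ((μ d : ℤ) : ℂ) = if n = 1 then 1 else 0 := by
  have h1 := congrArg (fun f : ArithmeticFunction ℤ => f n) ArithmeticFunction.moebius_mul_coe_zeta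
  simp only [ArithmeticFunction.coe_mul_zeta_apply, ArithmeticFunction.one_apply] at h1
  have h2 := congrArg (fun z : ℤ => (z : ℂ)) h1
  simp only [Int.cast_sum] at h2
  rw [h2]
  split_ifs <;> simp

/-- the indicator of the rough numbers -/
theorem le_ro {y n : ℕ} (hn : n ≠ 0) :
    ro y n = ∑ d ∈ (primorial y).divisors, if d ∣ n then ((μ d : ℤ) : ℂ) else 0 := by
  rw [← Finset.sum_filter]
  have h1 : (primorial y).divisors.filter (fun d => d ∣ n) = (Nat.gcd n (primorial y)).divisors := by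
    ext d
    rw [Finset.mem_filter, Nat.mem_divisors, Nat.mem_divisors, Nat.dvd_gcd_iff]
    constructor
    · rintro ⟨⟨h1, _⟩, h3⟩
      exact ⟨⟨h3, h1⟩, (Nat.gcd_pos_of_pos_left _ (Nat.pos_of_ne_zero hn)).ne'⟩
    · rintro ⟨⟨h1, h2⟩, _⟩
      exact ⟨⟨h2, primorial_ne_zero y⟩, h1⟩
  rw [h1, le_mu_sum]
  by_cases h : Ro y n
  · rw [ro_pos h, if_pos (le_rough_iff.1 h)]
  · rw [ro_neg h, if_neg fun h' => h (le_rough_iff.2 h')]

/-- Euler's product as a sum over the divisors of the primorial -/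
theorem le_Vy (y : ℕ) :
    (Vy y : ℂ) = ∑ d ∈ (primorial y).divisors, ((μ d : ℤ) : ℂ) / d := by
  let f : ArithmeticFunction ℂ := ⟨fun n => (n : ℂ)⁻¹, by simp⟩
  have hf : f.IsMultiplicative := by
    refine ⟨by simp [f], fun {m n} _ => ?_⟩
    simp only [f, ArithmeticFunction.coe_mk]
    push_cast
    rw [mul_inv]
  have h1 := ArithmeticFunction.IsMultiplicative.prodPrimeFactors_one_sub_of_squarefree f hf
    (squarefree_primorial y)
  have h2 : (primorial y).primeFactors = (Finset.Icc 1 y).filter Nat.Prime := by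
    ext p
    rw [Nat.mem_primeFactors, Finset.mem_filter, Finset.mem_Icc]
    constructor
    · rintro ⟨hp, hpy, _⟩
      exact ⟨⟨hp.one_lt.le, (Nat.Prime.dvd_primorial_iff hp).1 hpy⟩, hp⟩
    · rintro ⟨⟨_, hpy⟩, hp⟩
      exact ⟨hp, (Nat.Prime.dvd_primorial_iff hp).2 hpy, primorial_ne_zero y⟩
  rw [h2] at h1
  unfold Vy
  push_cast
  simp only [f, ArithmeticFunction.coe_mk] at h1
  simp only [div_eq_mul_inv, one_mul]
  exact h1

/-- multiples of `d` -/
theorem le_multiples {d : ℕ} (hd : d ≠ 0) (N : ℝ) (f : ℕ → ℂ) :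
    ∑ n ∈ Icc 1 ⌊N⌋₊, (if d ∣ n then f n else 0) = ∑ m ∈ Icc 1 ⌊N / d⌋₊, f (d * m) := by
  rw [← Finset.sum_filter]
  symm
  have hd' : 0 < d := Nat.pos_of_ne_zero hd
  refine Finset.sum_nbij' (fun m => d * m) (fun n => n / d) ?_ ?_ ?_ ?_ ?_
  · intro m hm
    rw [Finset.mem_Icc, Nat.floor_div_natCast] at hm
    rw [Finset.mem_filter, Finset.mem_Icc]
    refine ⟨⟨Nat.mul_pos hd' (by omega), ?_⟩, dvd_mul_right d m⟩
    have := (Nat.le_div_iff_mul_le hd').1 hm.2
    rwa [mul_comm] at this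
  · intro n hn
    rw [Finset.mem_filter, Finset.mem_Icc] at hn
    rw [Finset.mem_Icc, Nat.floor_div_natCast]
    obtain ⟨⟨h1, h2⟩, h3⟩ := hn
    exact ⟨Nat.div_pos (Nat.le_of_dvd (by omega) h3) hd', Nat.div_le_div_right h2⟩
  · intro m hm
    exact Nat.mul_div_cancel_left m hd'
  · intro n hn
    rw [Finset.mem_filter] at hn
    exact Nat.mul_div_cancel' hn.2
  · intro m hm
    rfl

theorem st_LE : ST_LE := by
  intro y N t hy hN
  have h1 : Ph 0 y N t = ∑ d ∈ (primorial y).divisors,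
      ((μ d : ℤ) : ℂ) * (nit d t * Sg (fun n => nit n t) (N / d)) := by
    unfold Ph Sg
    have h2 : ∀ n ∈ Icc 1 ⌊N⌋₊, (Real.log n : ℂ) ^ 0 * rt y t n =
        ∑ d ∈ (primorial y).divisors, if d ∣ n then ((μ d : ℤ) : ℂ) * nit n t else 0 := by
      intro n hn
      have hn0 : n ≠ 0 := by
        have := (Finset.mem_Icc.1 hn).1
        omega
      rw [pow_zero, one_mul]
      unfold rt
      rw [le_ro hn0, Finset.sum_mul]
      refine Finset.sum_congr rfl fun d _ => ?_
      split_ifs <;> simp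
    rw [Finset.sum_congr rfl h2, Finset.sum_comm]
    refine Finset.sum_congr rfl fun d hd => ?_
    have hd0 : d ≠ 0 := (Nat.pos_of_mem_divisors hd).ne'
    rw [le_multiples hd0, Finset.mul_sum, Finset.mul_sum]
    refine Finset.sum_congr rfl fun m hm => ?_
    have hm0 : m ≠ 0 := by
      have := (Finset.mem_Icc.1 hm).1
      omega
    rw [nit_mul hd0 hm0]
  have h3 : Dd y N t = ∑ d ∈ (primorial y).divisors, ((μ d : ℤ) : ℂ) * (nit d t *
      (Sg (fun n => nit n t) (N / d) - Mt (N / d) t)) := by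
    unfold Dd
    rw [h1, le_Vy, Finset.sum_mul, ← Finset.sum_sub_distrib]
    refine Finset.sum_congr rfl fun d hd => ?_
    have hd0 : d ≠ 0 := (Nat.pos_of_mem_divisors hd).ne'
    rw [mul_sub, nit_Mt hd0 hN]
    ring
  rw [h3]
  refine (norm_sum_le _ _).trans (Finset.sum_le_sum fun d _ => ?_)
  rw [norm_mul, norm_mul, norm_nit, one_mul]
  refine mul_le_of_le_one_left (norm_nonneg _) ?_
  rw [Complex.norm_intCast]
  have h4 := ArithmeticFunction.abs_moebius_le_one (n := d)
  exact_mod_cast h4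

end Pool.Agent.Helper59.AA
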